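import Pool.Agent.helper61.Y2.Spec

set_option autoImplicit false

namespace H61.Y2

open H61.Yorioka Cardinal

theorem D2 : D2_stmt := by
  intro e D h
  refine ⟨⟨?_, ?_, ?_⟩, ?_⟩
  · intro a b hab
    have := h.mono hab
    show D a / 2 + 1 ≤ D b / 2 + 1
    omega
  · intro j
    show 1 ≤ D j / 2 + 1
    omega
  · intro C
    obtain ⟨j, hj⟩ := h.unb (2 * C)
    refine ⟨j, ?_⟩
    show C ≤ D j / 2 + 1
    omega
  · obtain ⟨m, hm⟩ := h.key
    refine ⟨max m 4, fun j hj => ?_⟩
    have h1 := hm j (le_trans (le_max_left _ _) hj)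
    have h4 : 4 ≤ j := le_trans (le_max_right _ _) hj
    have hle := h.le j
    have h2 : 2 ^ j = 2 ^ (j - D j) * 2 ^ D j := by
      rw [← pow_add, Nat.sub_add_cancel hle]
    rw [h2] at h1
    have h3 : e j + 2 * j ≤ 2 ^ (j - D j) := Nat.le_of_mul_le_mul_right h1 (by positivity)
    constructor
    · omega
    · omega

end H61.Y2
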